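import Pool.Agent.H334.Returns

/-!
From cycles meeting large blocks in a bounded number of points to trivial returns.
-/

set_option autoImplicit false

namespace Pool.Agent.H334.Returns

variable {G Ω : Type*} [Group G] [MulAction G Ω]

theorem relIndex_stab (ω : Ω) (V : Subgroup G) :
    (MulAction.stabilizer G ω).relIndex V = (MulAction.orbit V ω).ncard := by
  rw [← MulAction.index_stabilizer]
  rfl

theorem blk_singleton (a : Ω) : Blk G ({a} : Set Ω) := by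
  intro g b hb hgb c hc
  rw [Set.mem_singleton_iff] at hb hc
  rw [hc, ← hb]
  rwa [hb] at hgb ⊢

theorem U_singleton (a : Ω) : U G ({a} : Set Ω) = MulAction.stabilizer G a := by
  ext g
  rw [mem_U (blk_singleton a) (Set.mem_singleton a), MulAction.mem_stabilizer_iff,
    Set.mem_singleton_iff]

/-- The number of points of `B` in the cycle of `a ∈ B`. -/
theorem count_point {B : Set Ω} (hB : Blk G B) {a : Ω} (ha : a ∈ B) (y : G) :
    (U G ({a} : Set Ω) ⊓ Subgroup.zpowers y).relIndex (U G B ⊓ Subgroup.zpowers y)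
      = (B ∩ {b | ∃ n : ℤ, y ^ n • a = b}).ncard := by
  have h1 : U G ({a} : Set Ω) ≤ U G B := U_mono hB (by simpa using ha) (Set.mem_singleton a)
  have h2 : U G ({a} : Set Ω) ⊓ Subgroup.zpowers y
      = U G ({a} : Set Ω) ⊓ (U G B ⊓ Subgroup.zpowers y) := by
    rw [← inf_assoc, inf_eq_left.2 h1]
  rw [h2, Subgroup.inf_relIndex_right, U_singleton, relIndex_stab]
  congr 1
  ext b
  constructor
  · rintro ⟨⟨g, hg1, hg2⟩, rfl⟩
    obtain ⟨n, rfl⟩ := Subgroup.mem_zpowers_iff.1 hg2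
    exact ⟨(hg1 a).2 ha, n, rfl⟩
  · rintro ⟨hb, n, rfl⟩
    exact ⟨⟨y ^ n, (mem_U hB ha).2 hb, Subgroup.mem_zpowers_iff.2 ⟨n, rfl⟩⟩, rfl⟩

theorem count_mul {E₀ E₁ B : Set Ω} (hE₁ : Blk G E₁) (hB : Blk G B) (h01 : E₀ ⊆ E₁)
    (h1B : E₁ ⊆ B) {a : Ω} (ha : a ∈ E₀) (y : G) :
    (U G E₀ ⊓ Subgroup.zpowers y).relIndex (U G E₁ ⊓ Subgroup.zpowers y)
      * (U G E₁ ⊓ Subgroup.zpowers y).relIndex (U G B ⊓ Subgroup.zpowers y)
      = (U G E₀ ⊓ Subgroup.zpowers y).relIndex (U G B ⊓ Subgroup.zpowers y) :=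
  Subgroup.relIndex_mul_relIndex _ _ _ (inf_le_inf_right _ (U_mono hE₁ h01 ha))
    (inf_le_inf_right _ (U_mono hB h1B (h01 ha)))

theorem count_ne_zero {E B : Set Ω} (hE : Blk G E) (hB : Blk G B) (hEB : E ⊆ B) (hBf : B.Finite)
    {a : Ω} (ha : a ∈ E) (y : G) :
    (U G E ⊓ Subgroup.zpowers y).relIndex (U G B ⊓ Subgroup.zpowers y) ≠ 0 := by
  intro h0
  have h1 : U G ({a} : Set Ω) ≤ U G E := U_mono hE (by simpa using ha) (Set.mem_singleton a)
  have h2 := Subgroup.relIndex_dvd_of_le_left (U G B ⊓ Subgroup.zpowers y)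
    (inf_le_inf_right (Subgroup.zpowers y) h1)
  rw [h0, zero_dvd_iff, count_point hB (hEB ha),
    Set.ncard_eq_zero (hBf.inter_of_left _)] at h2
  have h3 : a ∈ B ∩ {b | ∃ n : ℤ, y ^ n • a = b} := ⟨hEB ha, 0, by rw [zpow_zero, one_smul]⟩
  rw [h2] at h3
  exact h3

/-- The finitely many permutations of a finite set induced by its stabiliser are induced by
elements with supports in one finite set. -/
theorem exists_support (hfin : ∀ g : G, {a : Ω | g • a ≠ a}.Finite) (E : Set Ω) (hE : E.Finite) :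
    ∃ F : Set Ω, F.Finite ∧ ∀ s ∈ U G E, ∃ t : G, (∀ a, a ∉ F → t • a = a) ∧
      ∀ a ∈ E, t • a = s • a := by
  classical
  have hEf : Finite E := hE.to_subtype
  let T : (E → E) → G := fun f =>
    if h : ∃ t : G, ∀ a : E, t • (a : Ω) = f a then h.choose else 1
  have hT : ∀ s ∈ U G E, ∃ f : E → E, ∀ a ∈ E, T f • a = s • a := by
    intro s hs
    let f : E → E := fun a => ⟨s • (a : Ω), (hs _).2 a.2⟩
    have h : ∃ t : G, ∀ a : E, t • (a : Ω) = f a := ⟨s, fun a => rfl⟩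
    refine ⟨f, fun a ha => ?_⟩
    have h1 : T f = h.choose := dif_pos h
    rw [h1]
    exact h.choose_spec ⟨a, ha⟩
  refine ⟨⋃ f, {a | T f • a ≠ a}, Set.finite_iUnion (fun f => hfin _), fun s hs => ?_⟩
  obtain ⟨f, hf⟩ := hT s hs
  refine ⟨T f, fun a ha => ?_, hf⟩
  by_contra h
  exact ha (Set.mem_iUnion.2 ⟨f, h⟩)

theorem few (hfin : ∀ g : G, {a : Ω | g • a ≠ a}.Finite) (htr : ∀ a b : Ω, ∃ g : G, g • a = b)
    (k : ℕ)
    (hk : ∀ F : Set Ω, F.Finite → ∃ B : Set Ω, F ⊆ B ∧ B.Finite ∧ Blk G B ∧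
      ∃ y : G, ∃ a ∈ B, (∃ n : ℤ, y ^ n • a ∉ B) ∧
        (B ∩ {b | ∃ n : ℤ, y ^ n • a = b}).ncard ≤ k) :
    ∀ F : Set Ω, F.Finite → ∃ B : Set Ω, F ⊆ B ∧ ∃ t y : G, ∃ q : ℕ,
      1 < q ∧ (∀ a, a ∉ B → t • a = a) ∧ (∀ j, 0 < j → j < q → ∀ b ∈ B, y ^ j • b ∉ B) ∧
      (∀ a ∈ F, t • a = y ^ q • a) := by
  classical
  obtain ⟨-, -, -, -, -, a₀, -, -⟩ := hk ∅ Set.finite_empty
  let P : ℕ → Prop := fun e => ∃ E : Set Ω, E.Finite ∧ Blk G E ∧ a₀ ∈ E ∧
    ∀ F : Set Ω, F.Finite → ∃ B : Set Ω, F ⊆ B ∧ E ⊆ B ∧ B.Finite ∧ Blk G B ∧ ∃ y : G,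
      y ∉ U G B ∧
      (U G E ⊓ Subgroup.zpowers y).relIndex (U G B ⊓ Subgroup.zpowers y) ≤ e
  have hPk : ∃ e, P e := by
    refine ⟨k, {a₀}, Set.finite_singleton _, blk_singleton a₀, rfl, fun F hF => ?_⟩
    · obtain ⟨B, hFB, hBf, hB, y, a, ha, ⟨m, hm⟩, hc⟩ :=
        hk (F ∪ {a₀}) (hF.union (Set.finite_singleton _))
      have ha₀ : a₀ ∈ B := hFB (Or.inr rfl)
      obtain ⟨g, hg⟩ := htr a a₀
      have hgB : g ∈ U G B := (mem_U hB ha).2 (by rw [hg]; exact ha₀)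
      have hpow : ∀ n : ℤ, (g * y * g⁻¹) ^ n • a₀ = g • y ^ n • a := by
        intro n
        rw [conj_zpow, mul_smul, mul_smul, ← hg, inv_smul_smul]
      refine ⟨B, fun b hb => hFB (Or.inl hb), by simpa using ha₀, hBf, hB, g * y * g⁻¹, ?_, ?_⟩
      · intro h
        have h1 := zpow_mem h m
        have h2 := (h1 a₀).2 ha₀
        rw [hpow, hgB] at h2
        exact hm h2
      · rw [count_point hB ha₀]
        refine le_trans (le_of_eq ?_) hc
        have h1 : (B ∩ {b | ∃ n : ℤ, (g * y * g⁻¹) ^ n • a₀ = b})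
            = (fun c => g • c) '' (B ∩ {b | ∃ n : ℤ, y ^ n • a = b}) := by
          ext b
          constructor
          · rintro ⟨hb, n, rfl⟩
            rw [hpow] at hb ⊢
            exact ⟨y ^ n • a, ⟨(hgB _).1 hb, n, rfl⟩, rfl⟩
          · rintro ⟨_, ⟨hb, n, rfl⟩, rfl⟩
            exact ⟨(hgB _).2 hb, n, hpow n⟩
        rw [h1, Set.ncard_image_of_injective _ (MulAction.injective g)]
  have he : Nat.find hPk ≤ 1 := by
    by_contra hlt
    push Not at hlt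
    obtain ⟨E₀, hE₀f, hE₀, ha₀, hE₀P⟩ := Nat.find_spec hPk
    have hneg := Nat.find_min hPk (m := Nat.find hPk - 1) (by omega)
    have hF₁ : ∃ F₁ : Set Ω, F₁.Finite ∧ ∀ B : Set Ω, F₁ ⊆ B → E₀ ⊆ B → B.Finite → Blk G B →
        ∀ y : G, y ∉ U G B → Nat.find hPk ≤
          (U G E₀ ⊓ Subgroup.zpowers y).relIndex (U G B ⊓ Subgroup.zpowers y) := by
      by_contra hcon
      push Not at hcon
      apply hneg
      refine ⟨E₀, hE₀f, hE₀, ha₀, fun F hF => ?_⟩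
      obtain ⟨B, h1, h2, h3, h4, y, h5, h6⟩ := hcon F hF
      exact ⟨B, h1, h2, h3, h4, y, h5, by omega⟩
    obtain ⟨F₁, hF₁f, hF₁⟩ := hF₁
    obtain ⟨E₁, hE₁, hE₁f, hE₁b, -⟩ := hk (F₁ ∪ E₀) (hF₁f.union hE₀f)
    have h01 : E₀ ⊆ E₁ := fun a ha => hE₁ (Or.inr ha)
    have hP1 : P 1 := by
      refine ⟨E₁, hE₁f, hE₁b, h01 ha₀, fun F hF => ?_⟩
      obtain ⟨B, h1, h2, h3, h4, y, h5, h6⟩ := hE₀P (F ∪ E₁) (hF.union hE₁f)
      have h1B : E₁ ⊆ B := fun a ha => h1 (Or.inr ha)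
      refine ⟨B, fun a ha => h1 (Or.inl ha), h1B, h3, h4, y, h5, ?_⟩
      have h7 := hF₁ E₁ (fun a ha => hE₁ (Or.inl ha)) h01 hE₁f hE₁b y
        (fun h => h5 (U_mono h4 h1B (h01 ha₀) h))
      have h8 := count_mul hE₁b h4 h01 h1B ha₀ y
      by_contra h9
      push Not at h9
      have h10 : Nat.find hPk * 2 ≤ Nat.find hPk := by
        calc Nat.find hPk * 2 ≤ _ := Nat.mul_le_mul h7 h9
          _ = _ := h8
          _ ≤ _ := h6
      omega
    exact absurd (Nat.find_min' hPk hP1) (by omega)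
  obtain ⟨E, hEf, hE, ha₀, hEP⟩ := Nat.find_spec hPk
  intro F₀ hF₀
  obtain ⟨E', hE', hE'f, hE'b, -⟩ := hk (F₀ ∪ E) (hF₀.union hEf)
  have hEE' : E ⊆ E' := fun a ha => hE' (Or.inr ha)
  obtain ⟨F₂, hF₂, hF₂t⟩ := exists_support hfin E' hE'f
  obtain ⟨B, h1, h2, h3, h4, y, h5, h6⟩ := hEP (F₂ ∪ E') (hF₂.union hE'f)
  have h7 : (U G E ⊓ Subgroup.zpowers y).relIndex (U G B ⊓ Subgroup.zpowers y) = 1 := by
    have := count_ne_zero hE h4 h2 h3 ha₀ y
    omega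
  rw [Subgroup.relIndex_eq_one] at h7
  have hret : ∃ n : ℕ, 0 < n ∧ y ^ n ∈ U G B := by
    have hya : y • a₀ ≠ a₀ := by
      intro h
      exact h5 ((mem_U h4 (h2 ha₀)).2 (by rw [h]; exact h2 ha₀))
    have hsup : ∀ n : ℕ, y ^ n • a₀ ∈ {a : Ω | y • a ≠ a} := by
      intro n h
      rw [← mul_smul, ← pow_succ', pow_succ, mul_smul] at h
      exact hya (smul_left_cancel _ h)
    have hninj : ¬ Function.Injective (fun n : ℕ => y ^ n • a₀) := by
      intro hinj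
      exact Set.infinite_of_injective_forall_mem hinj hsup (hfin y)
    have hlt : ∀ m n : ℕ, m < n → y ^ m • a₀ = y ^ n • a₀ → ∃ n : ℕ, 0 < n ∧ y ^ n ∈ U G B := by
      intro m n hmn h
      refine ⟨n - m, by omega, ?_⟩
      rw [mem_U h4 (h2 ha₀)]
      have h8 : y ^ n = y ^ m * y ^ (n - m) := by rw [← pow_add]; congr 1; omega
      rw [h8, mul_smul] at h
      have h9 := smul_left_cancel _ h
      rw [← h9]
      exact h2 ha₀
    unfold Function.Injective at hninj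
    push Not at hninj
    obtain ⟨m, n, hmn, hne⟩ := hninj
    rcases lt_or_gt_of_ne hne with h | h
    · exact hlt m n h hmn
    · exact hlt n m h hmn.symm
  set q := Nat.find hret with hq
  obtain ⟨hq0, hqU⟩ := Nat.find_spec hret
  have hqE : y ^ q ∈ U G E' :=
    U_mono hE'b hEE' ha₀ (h7 ⟨hqU, Subgroup.npow_mem_zpowers y q⟩).1
  obtain ⟨t, ht1, ht2⟩ := hF₂t _ hqE
  refine ⟨B, fun a ha => h1 (Or.inr (hE' (Or.inl ha))), t, y, q, ?_, ?_, ?_, ?_⟩
  · rcases Nat.lt_or_ge 1 q with h | h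
    · exact h
    · exfalso
      have h8 : q = 1 := le_antisymm h hq0
      rw [← hq, h8, pow_one] at hqU
      exact h5 hqU
  · intro a ha
    exact ht1 a (fun h => ha (h1 (Or.inl h)))
  · intro j hj0 hjq b hb hjb
    exact Nat.find_min hret hjq ⟨hj0, (mem_U h4 hb).2 hjb⟩
  · intro a ha
    exact ht2 a (hE' (Or.inl ha))

end Pool.Agent.H334.Returns
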