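import Pool.Agent.H334.Final

/-!
Finitary transitive groups in which a fixed power of every element stabilising a large block
agrees on the block with an element supported in the block.
-/

set_option autoImplicit false

namespace Pool.Agent.H334.Returns

variable {G Ω : Type*} [Group G] [MulAction G Ω]

theorem exists_period {y : G} {V : Subgroup G} (h : ∃ n : ℕ, 0 < n ∧ y ^ n ∈ V) :
    ∃ q : ℕ, 0 < q ∧ y ^ q ∈ V ∧ ∀ n : ℤ, y ^ n ∈ V → (q : ℤ) ∣ n := by
  classical
  obtain ⟨h1, h2⟩ := Nat.find_spec h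
  refine ⟨Nat.find h, h1, h2, fun n hn => ?_⟩
  set q := Nat.find h with hq
  have hq0 : (0 : ℤ) < q := by exact_mod_cast h1
  have h3 : y ^ (n % (q : ℤ)) ∈ V := by
    rw [Int.emod_def, zpow_sub, zpow_mul, zpow_natCast]
    exact mul_mem hn (inv_mem (zpow_mem h2 _))
  have h4 := Int.emod_nonneg n hq0.ne'
  have h5 := Int.emod_lt_of_pos n hq0
  obtain ⟨m, hm⟩ := Int.eq_ofNat_of_zero_le h4
  rw [hm] at h3 h5
  rw [zpow_natCast] at h3
  by_contra h6
  have h7 : m ≠ 0 := by
    intro h8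
    apply h6
    apply Int.dvd_of_emod_eq_zero
    rw [hm, h8]
    rfl
  exact Nat.find_min h (m := m) (by exact_mod_cast h5) ⟨Nat.pos_of_ne_zero h7, h3⟩

theorem stepA
    (h3 : ∀ k : ℕ, ∃ F : Set Ω, F.Finite ∧ ∀ B : Set Ω, F ⊆ B → B.Finite → Blk G B →
      ∀ y : G, ∀ a ∈ B, (∃ n : ℤ, y ^ n • a ∉ B) →
        k < (B ∩ {b | ∃ n : ℤ, y ^ n • a = b}).ncard)
    {E : Set Ω} (hEf : E.Finite) {a : Ω} (ha : a ∈ E) (N : ℕ) (hN : 0 < N) :
    ∃ F : Set Ω, F.Finite ∧ ∀ B : Set Ω, F ⊆ B → E ⊆ B → B.Finite → Blk G B → ∀ y : G,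
      y ∉ U G B → ∀ q : ℕ, 0 < q → y ^ q ∈ U G B → (∀ n : ℤ, y ^ n ∈ U G B → (q : ℤ) ∣ n) →
        y ^ (q * N) ∉ U G E := by
  classical
  obtain ⟨F, hF, h⟩ := h3 (N * E.ncard)
  refine ⟨F, hF, fun B hFB hEB hBf hB y hy q hq0 hqB hq hE => ?_⟩
  have h1 := h B hFB hBf hB y a (hEB ha) ⟨1, by
    rw [zpow_one]
    intro h2
    exact hy ((mem_U hB (hEB ha)).2 h2)⟩
  -- a power of `y ^ (q * N)` fixes `a`
  obtain ⟨M, hM0, hM, hMa⟩ : ∃ M : ℕ, 0 < M ∧ M ≤ E.ncard ∧ (y ^ (q * N)) ^ M • a = a := by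
    have h2 : ∀ i ∈ Finset.range (E.ncard + 1), (y ^ (q * N)) ^ i • a ∈ hEf.toFinset := by
      intro i _
      rw [hEf.mem_toFinset]
      exact (pow_mem hE i a).2 ha
    have h3 : hEf.toFinset.card < (Finset.range (E.ncard + 1)).card := by
      rw [Finset.card_range, ← Set.ncard_eq_toFinset_card _ hEf]
      omega
    obtain ⟨i, hi, j, hj, hij, he⟩ := Finset.exists_ne_map_eq_of_card_lt_of_maps_to h3 h2
    rw [Finset.mem_range] at hi hj
    have key : ∀ i j : ℕ, i < j → j < E.ncard + 1 →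
        (y ^ (q * N)) ^ i • a = (y ^ (q * N)) ^ j • a →
        ∃ M : ℕ, 0 < M ∧ M ≤ E.ncard ∧ (y ^ (q * N)) ^ M • a = a := by
      intro i j hij hj he
      refine ⟨j - i, by omega, by omega, ?_⟩
      have h4 : (y ^ (q * N)) ^ j = (y ^ (q * N)) ^ i * (y ^ (q * N)) ^ (j - i) := by
        rw [← pow_add]; congr 1; omega
      rw [h4, mul_smul] at he
      exact (smul_left_cancel _ he).symm
    rcases lt_or_gt_of_ne hij with h4 | h4
    · exact key i j h4 hj he
    · exact key j i h4 hi he.symm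
  have hNM : 0 < N * M := Nat.mul_pos hN hM0
  have h2 : (B ∩ {b | ∃ n : ℤ, y ^ n • a = b})
      ⊆ ((Finset.range (N * M)).image (fun i => (y ^ q) ^ i • a) : Finset Ω) := by
    rintro b ⟨hb, n, rfl⟩
    obtain ⟨m, rfl⟩ := hq n ((mem_U hB (hEB ha)).2 hb)
    rw [Finset.coe_image]
    have hpos : (0 : ℤ) < ((N * M : ℕ) : ℤ) := by exact_mod_cast hNM
    have h4 := Int.emod_nonneg m hpos.ne'
    have h5 := Int.emod_lt_of_pos m hpos
    obtain ⟨l, hl⟩ := Int.eq_ofNat_of_zero_le h4
    refine ⟨l, ?_, ?_⟩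
    · rw [Finset.coe_range, Set.mem_Iio]
      rw [hl] at h5
      exact_mod_cast h5
    · have hfix : ∀ c : ℤ, ((y ^ q) ^ (N * M)) ^ c • a = a := by
        have h6 : (y ^ q) ^ (N * M) ∈ MulAction.stabilizer G a := by
          rw [MulAction.mem_stabilizer_iff]
          rw [← pow_mul, ← mul_assoc, pow_mul]
          exact hMa
        intro c
        exact zpow_mem h6 c
      have h7 : y ^ ((q : ℤ) * m) = (y ^ q) ^ l * ((y ^ q) ^ (N * M)) ^ (m / ((N * M : ℕ) : ℤ)) := by
        rw [zpow_mul, zpow_natCast, ← zpow_natCast (y ^ q) l, ← zpow_natCast (y ^ q) (N * M),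
          ← zpow_mul, ← zpow_add]
        congr 1
        have := Int.emod_add_mul_ediv m ((N * M : ℕ) : ℤ)
        rw [hl] at this
        exact this.symm
      change (y ^ q) ^ l • a = _
      rw [h7, mul_smul, hfix]
  have h8 := Set.ncard_le_ncard h2 (Finset.finite_toSet _)
  rw [Set.ncard_coe_finset] at h8
  have h9 := Finset.card_image_le (s := Finset.range (N * M)) (f := fun i => (y ^ q) ^ i • a)
  rw [Finset.card_range] at h9
  have h10 : N * M ≤ N * E.ncard := Nat.mul_le_mul_left N hM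
  omega

/-- The local group of a group generated by elements supported in `F` and an element whose
returns to `F` are powers of `g`. -/
theorem step3 {F : Set Ω} (hF : Blk G F) {X : Set G} {t g g' : G} {N : ℤ}
    (hX : ∀ x ∈ X, ∀ c, c ∉ F → x • c = c) (ht : ∀ c, c ∉ F → t • c = c)
    (htg : ∀ a ∈ F, t • a = g ^ N • a) (hg : g ∈ U G F)
    (hcoh : ∀ m : ℤ, g' ^ m ∈ U G F → ∃ m' : ℤ, ∀ a ∈ F, g' ^ m • a = g ^ m' • a) :
    ∀ w ∈ Subgroup.closure (X ∪ {t} ∪ {g'}), ∀ j : ℤ, ∃ i : ℤ,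
      ∃ h ∈ Subgroup.closure (X ∪ {g}), ∀ e ∈ F, w • g' ^ j • e = g' ^ i • h • e := by
  have hXU : ∀ x : G, (∀ c, c ∉ F → x • c = c) → x ∈ U G F := by
    intro x hx b
    constructor
    · intro h1
      by_contra h2
      rw [hx b h2] at h1
      exact h2 h1
    · intro h1
      by_contra h2
      have h3 := smul_left_cancel x (hx _ h2)
      rw [h3] at h2
      exact h2 h1
  have hWU : Subgroup.closure (X ∪ {g}) ≤ U G F := by
    rw [Subgroup.closure_le]
    rintro x (hx | hx)
    · exact hXU x (hX x hx)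
    · rw [Set.mem_singleton_iff] at hx
      rw [hx]
      exact hg
  have hgW : g ∈ Subgroup.closure (X ∪ {g}) := Subgroup.subset_closure (Or.inr rfl)
  -- elements supported in `F`
  have hsup : ∀ w : G, (∀ c, c ∉ F → w • c = c) →
      (∃ v ∈ Subgroup.closure (X ∪ {g}), ∀ a ∈ F, w • a = v • a) →
      ∀ j : ℤ, ∃ i : ℤ, ∃ h ∈ Subgroup.closure (X ∪ {g}), ∀ e ∈ F,
        w • g' ^ j • e = g' ^ i • h • e := by
    rintro w hw ⟨v, hv, hwv⟩ j
    by_cases hj : g' ^ j ∈ U G F
    · obtain ⟨m, hm⟩ := hcoh j hj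
      refine ⟨0, v * g ^ m, mul_mem hv (zpow_mem hgW m), fun e he => ?_⟩
      rw [hm e he, hwv _ ((zpow_mem hg m e).2 he), zpow_zero, one_smul, mul_smul]
    · refine ⟨j, 1, one_mem _, fun e he => ?_⟩
      rw [one_smul]
      exact hw _ (fun h => hj ((mem_U hF he).2 h))
  have hinv : ∀ w : G, (∀ c, c ∉ F → w • c = c) → ∀ c, c ∉ F → w⁻¹ • c = c := by
    intro w hw c hc
    rw [inv_smul_eq_iff, hw c hc]
  have hinv2 : ∀ w v : G, w ∈ U G F → (∀ a ∈ F, w • a = v • a) → ∀ a ∈ F, w⁻¹ • a = v⁻¹ • a := by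
    intro w v hw h a ha
    rw [inv_smul_eq_iff]
    have h1 : w⁻¹ • a ∈ F := (inv_mem hw a).2 ha
    have h2 := h _ h1
    rw [smul_inv_smul] at h2
    have h3 : v⁻¹ • a = w⁻¹ • a := by
      conv_lhs => rw [h2]
      rw [inv_smul_smul]
    rw [h3, smul_inv_smul]
  have key : ∀ w ∈ Submonoid.closure ((X ∪ {t} ∪ {g'}) ∪ (X ∪ {t} ∪ {g'})⁻¹),
      ∀ j : ℤ, ∃ i : ℤ, ∃ h ∈ Subgroup.closure (X ∪ {g}), ∀ e ∈ F,
        w • g' ^ j • e = g' ^ i • h • e := by
    intro w hw
    induction hw using Submonoid.closure_induction with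
    | mem w hw =>
      rcases hw with ((hw | hw) | hw) | hw
      · exact hsup w (hX w hw) ⟨w, Subgroup.subset_closure (Or.inl hw), fun a _ => rfl⟩
      · rw [Set.mem_singleton_iff] at hw
        subst hw
        exact hsup w ht ⟨g ^ N, zpow_mem hgW N, htg⟩
      · rw [Set.mem_singleton_iff] at hw
        subst hw
        intro j
        refine ⟨j + 1, 1, one_mem _, fun e he => ?_⟩
        rw [one_smul, ← mul_smul, ← zpow_one_add, add_comm]
      · rw [Set.mem_inv] at hw
        rcases hw with (hw | hw) | hw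
        · have h1 := hinv _ (hX _ hw)
          rw [inv_inv] at h1
          refine hsup w h1 ⟨w, ?_, fun a _ => rfl⟩
          have := inv_mem (Subgroup.subset_closure (Or.inl hw) :
            w⁻¹ ∈ Subgroup.closure (X ∪ {g}))
          rwa [inv_inv] at this
        · rw [Set.mem_singleton_iff] at hw
          have hw' : w = t⁻¹ := by rw [← hw, inv_inv]
          subst hw'
          exact hsup _ (hinv t ht) ⟨(g ^ N)⁻¹, inv_mem (zpow_mem hgW N),
            hinv2 t _ (hXU t ht) htg⟩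
        · rw [Set.mem_singleton_iff] at hw
          have hw' : w = g'⁻¹ := by rw [← hw, inv_inv]
          subst hw'
          intro j
          refine ⟨j - 1, 1, one_mem _, fun e he => ?_⟩
          rw [one_smul, ← mul_smul, sub_eq_neg_add, zpow_add, zpow_neg_one]
    | one =>
      intro j
      exact ⟨j, 1, one_mem _, fun e he => by rw [one_smul, one_smul]⟩
    | mul w w' _ _ ih ih' =>
      intro j
      obtain ⟨i, h, hh, hi⟩ := ih' j
      obtain ⟨i', h', hh', hi'⟩ := ih i
      refine ⟨i', h' * h, mul_mem hh' hh, fun e he => ?_⟩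
      rw [mul_smul, hi e he, hi' _ ((hWU hh e).2 he), mul_smul h' h]
  intro w hw
  refine key w ?_
  rw [← Subgroup.closure_toSubmonoid]
  exact hw

theorem mem_U_of_support {F : Set Ω} {x : G} (hx : ∀ c, c ∉ F → x • c = c) : x ∈ U G F := by
  intro b
  constructor
  · intro h1
    by_contra h2
    rw [hx b h2] at h1
    exact h2 h1
  · intro h1
    by_contra h2
    have h3 := smul_left_cancel x (hx _ h2)
    rw [h3] at h2
    exact h2 h1

/-- Multiplying `y` by an element supported in a smaller block. -/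
theorem keep {E B : Set Ω} (hE : Blk G E) (hB : Blk G B) (hEB : E ⊆ B) {s : G}
    (hs : ∀ c, c ∉ E → s • c = c) (y : G) (m : ℕ) :
    ∃ s' : G, (∀ c, c ∉ B → s' • c = c) ∧ s' ∈ U G E ∧
      ∀ e ∈ B, (y * s) ^ m • e = y ^ m • s' • e := by
  induction m with
  | zero =>
    exact ⟨1, fun c _ => one_smul G c, one_mem _, fun e _ => by simp⟩
  | succ m ih =>
    obtain ⟨s', hs'1, hs'2, hs'3⟩ := ih
    have hs'B : s' ∈ U G B := mem_U_of_support hs'1
    by_cases hm : y ^ m ∈ U G B
    · refine ⟨(y ^ m)⁻¹ * s * y ^ m * s', ?_, ?_, ?_⟩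
      · intro c hc
        have h1 : y ^ m • c ∉ E := fun h => hc ((hm c).1 (hEB h))
        rw [mul_smul, hs'1 c hc, mul_smul, mul_smul, hs _ h1, inv_smul_smul]
      · refine mul_mem ?_ hs'2
        by_cases h1 : ∃ a ∈ E, y ^ m • a ∈ E
        · obtain ⟨a, ha, hma⟩ := h1
          have h2 : y ^ m ∈ U G E := (mem_U hE ha).2 hma
          exact mul_mem (mul_mem (inv_mem h2) (mem_U_of_support hs)) h2
        · push Not at h1
          intro b
          by_cases hb : b ∈ E
          · rw [mul_smul, mul_smul, hs _ (h1 b hb), inv_smul_smul]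
          · constructor
            · intro h3
              exfalso
              have h4 := h1 _ h3
              rw [mul_smul, mul_smul, smul_inv_smul] at h4
              -- `s` maps `y ^ m • b` outside `E`
              by_cases h5 : y ^ m • b ∈ E
              · exact h4 (((mem_U_of_support hs) _).2 h5)
              · rw [mul_smul, mul_smul, hs _ h5, inv_smul_smul] at h3
                exact hb h3
            · intro h3
              exact absurd h3 hb
      · intro e he
        rw [pow_succ', mul_smul, hs'3 e he, pow_succ', mul_smul, mul_smul y (y ^ m), mul_smul,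
          mul_smul, mul_smul, smul_inv_smul]
    · refine ⟨s', hs'1, hs'2, fun e he => ?_⟩
      have h1 : y ^ m • s' • e ∉ B := fun h => hm ((mem_U hB ((hs'B e).2 he)).2 h)
      rw [pow_succ', mul_smul, hs'3 e he, mul_smul, hs _ (fun h => h1 (hEB h)), pow_succ',
        mul_smul y (y ^ m)]

end Pool.Agent.H334.Returns
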