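import Pool.Agent.H334.Orbit

/-!
The theorem for permutation groups and for actions.
-/

set_option autoImplicit false

namespace Pool.Agent.H334.Returns

/-- The three properties of a block, for an action. -/
def Three (G : Type*) {Ω : Type*} [Group G] [MulAction G Ω] (k : ℕ) (B : Set Ω) : Prop :=
  (∀ a ∈ B, ∀ b ∈ B, ∃ t : G, (∀ c, c ∉ B → t • c = c) ∧ t • a = b) ∨
  (∃ t y : G, ∃ a ∈ B, ∃ q : ℕ, 0 < q ∧ y • a ∉ B ∧ (∀ j, 0 < j → j < q → y ^ j • a ∉ B) ∧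
    (∀ c, c ∉ B → t • c = c) ∧ t • a = y ^ q • a) ∨
  (∃ y : G, ∃ a ∈ B, (∃ n : ℤ, y ^ n • a ∉ B) ∧ (B ∩ {b | ∃ n : ℤ, y ^ n • a = b}).ncard ≤ k)

theorem three {G Ω : Type*} [Group G] [MulAction G Ω] [Infinite Ω]
    (hfin : ∀ g : G, {a : Ω | g • a ≠ a}.Finite) (htr : ∀ a b : Ω, ∃ g : G, g • a = b) (k : ℕ)
    (hk : ∀ F : Set Ω, F.Finite → ∃ B : Set Ω, F ⊆ B ∧ B.Finite ∧ Blk G B ∧ Three G k B)
    (D : Set Ω) (hD : D.Finite) :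
    ∃ H : Subgroup G, H ≠ ⊤ ∧ (∀ a ∈ D, (MulAction.orbit H a).Infinite) ∧
      ∀ a ∈ D, ∀ b ∈ D, a ≠ b → ∀ h ∈ H, h • a ≠ b := by
  have hC : ∀ F : Set Ω, F.Finite → ∃ B : Set Ω, F ⊆ B ∧ ∃ t y : G, ∃ q : ℕ,
      1 < q ∧ (∀ a, a ∉ B → t • a = a) ∧ (∀ j, 0 < j → j < q → ∀ b ∈ B, y ^ j • b ∉ B) ∧
      (∀ a ∈ F, t • a = y ^ q • a) := by
    by_cases h1 : ∀ F : Set Ω, F.Finite → ∃ B : Set Ω, F ⊆ B ∧ B.Finite ∧ Blk G B ∧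
        ∀ a ∈ B, ∀ b ∈ B, ∃ t : G, (∀ c, c ∉ B → t • c = c) ∧ t • a = b
    · exact orb hfin htr (orb_trans hfin htr h1)
    by_cases h2 : ∀ F : Set Ω, F.Finite → ∃ B : Set Ω, F ⊆ B ∧ B.Finite ∧ Blk G B ∧
        ∃ t y : G, ∃ a ∈ B, ∃ q : ℕ, 0 < q ∧ y • a ∉ B ∧
          (∀ j, 0 < j → j < q → y ^ j • a ∉ B) ∧
          (∀ c, c ∉ B → t • c = c) ∧ t • a = y ^ q • a
    · exact orb hfin htr h2
    by_cases h3 : ∀ F : Set Ω, F.Finite → ∃ B : Set Ω, F ⊆ B ∧ B.Finite ∧ Blk G B ∧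
        ∃ y : G, ∃ a ∈ B, (∃ n : ℤ, y ^ n • a ∉ B) ∧
          (B ∩ {b | ∃ n : ℤ, y ^ n • a = b}).ncard ≤ k
    · exact few hfin htr k h3
    exfalso
    simp only [not_forall] at h1 h2 h3
    obtain ⟨F₁, hF₁, h1⟩ := h1
    obtain ⟨F₂, hF₂, h2⟩ := h2
    obtain ⟨F₃, hF₃, h3⟩ := h3
    obtain ⟨B, hFB, hBf, hB, h⟩ := hk (F₁ ∪ F₂ ∪ F₃) ((hF₁.union hF₂).union hF₃)
    rcases h with h | h | h
    · exact h1 ⟨B, fun a ha => hFB (Or.inl (Or.inl ha)), hBf, hB, h⟩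
    · exact h2 ⟨B, fun a ha => hFB (Or.inl (Or.inr ha)), hBf, hB, h⟩
    · exact h3 ⟨B, fun a ha => hFB (Or.inr ha), hBf, hB, h⟩
  obtain ⟨a⟩ : Nonempty Ω := inferInstance
  obtain ⟨b, hb⟩ := exists_ne a
  obtain ⟨H, hH1, hH2⟩ := general hfin hC (D ∪ {a, b}) (hD.union (Set.toFinite _))
  refine ⟨H, ?_, fun c hc => hH1 c (Or.inl hc), fun c hc d hd => hH2 c (Or.inl hc) d (Or.inl hd)⟩
  intro h
  obtain ⟨g, hg⟩ := htr a b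
  exact hH2 a (Or.inr (Or.inl rfl)) b (Or.inr (Or.inr rfl)) hb.symm g (by rw [h]; trivial) hg

/-- A block in the usual sense. -/
theorem blk_of {G Ω : Type*} [Group G] [MulAction G Ω] {B : Set Ω}
    (h : ∀ g : G, (fun b => g • b) '' B = B ∨ Disjoint ((fun b => g • b) '' B) B) : Blk G B := by
  intro g b hb hgb c hc
  rcases h g with h1 | h1
  · rw [← h1]
    exact ⟨c, hc, rfl⟩
  · exact absurd hgb (Set.disjoint_left.1 h1 ⟨b, hb, rfl⟩)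

end Pool.Agent.H334.Returns
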