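import Pool.Agent.H334.Powers

/-!
The combined criterion.
-/

set_option autoImplicit false

namespace Pool.Agent.H334.Returns

variable {G Ω : Type*} [Group G] [MulAction G Ω]

/-- The count behind `stepA`, for one block. -/
theorem count_le {E B : Set Ω} (hEf : E.Finite) (hEB : E ⊆ B) (hB : Blk G B) {a : Ω}
    (ha : a ∈ E) {N : ℕ} (hN : 0 < N) {y : G} {q : ℕ}
    (hq : ∀ n : ℤ, y ^ n ∈ U G B → (q : ℤ) ∣ n) (hE : y ^ (q * N) ∈ U G E) :
    (B ∩ {b | ∃ n : ℤ, y ^ n • a = b}).ncard ≤ N * E.ncard := by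
  classical
  obtain ⟨M, hM0, hM, hMa⟩ : ∃ M : ℕ, 0 < M ∧ M ≤ E.ncard ∧ (y ^ (q * N)) ^ M • a = a := by
    have h2 : ∀ i ∈ Finset.range (E.ncard + 1), (y ^ (q * N)) ^ i • a ∈ hEf.toFinset := by
      intro i _
      rw [hEf.mem_toFinset]
      exact (pow_mem hE i a).2 ha
    have h3 : hEf.toFinset.card < (Finset.range (E.ncard + 1)).card := by
      rw [Finset.card_range, ← Set.ncard_eq_toFinset_card _ hEf]
      omega
    obtain ⟨i, hi, j, hj, hij, he⟩ := Finset.exists_ne_map_eq_of_card_lt_of_maps_to h3 h2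
    rw [Finset.mem_range] at hi hj
    have key : ∀ i j : ℕ, i < j → j < E.ncard + 1 →
        (y ^ (q * N)) ^ i • a = (y ^ (q * N)) ^ j • a →
        ∃ M : ℕ, 0 < M ∧ M ≤ E.ncard ∧ (y ^ (q * N)) ^ M • a = a := by
      intro i j hij hj he
      refine ⟨j - i, by omega, by omega, ?_⟩
      have h4 : (y ^ (q * N)) ^ j = (y ^ (q * N)) ^ i * (y ^ (q * N)) ^ (j - i) := by
        rw [← pow_add]; congr 1; omega
      rw [h4, mul_smul] at he
      exact (smul_left_cancel _ he).symm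
    rcases lt_or_gt_of_ne hij with h4 | h4
    · exact key i j h4 hj he
    · exact key j i h4 hi he.symm
  have hNM : 0 < N * M := Nat.mul_pos hN hM0
  have h2 : (B ∩ {b | ∃ n : ℤ, y ^ n • a = b})
      ⊆ ((Finset.range (N * M)).image (fun i => (y ^ q) ^ i • a) : Finset Ω) := by
    rintro b ⟨hb, n, rfl⟩
    obtain ⟨m, rfl⟩ := hq n ((mem_U hB (hEB ha)).2 hb)
    rw [Finset.coe_image]
    have hpos : (0 : ℤ) < ((N * M : ℕ) : ℤ) := by exact_mod_cast hNM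
    have h4 := Int.emod_nonneg m hpos.ne'
    have h5 := Int.emod_lt_of_pos m hpos
    obtain ⟨l, hl⟩ := Int.eq_ofNat_of_zero_le h4
    refine ⟨l, ?_, ?_⟩
    · rw [Finset.coe_range, Set.mem_Iio]
      rw [hl] at h5
      exact_mod_cast h5
    · have hfix : ∀ c : ℤ, ((y ^ q) ^ (N * M)) ^ c • a = a := by
        have h6 : (y ^ q) ^ (N * M) ∈ MulAction.stabilizer G a := by
          rw [MulAction.mem_stabilizer_iff]
          rw [← pow_mul, ← mul_assoc, pow_mul]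
          exact hMa
        intro c
        exact zpow_mem h6 c
      have h7 : y ^ ((q : ℤ) * m) = (y ^ q) ^ l * ((y ^ q) ^ (N * M)) ^ (m / ((N * M : ℕ) : ℤ)) := by
        rw [zpow_mul, zpow_natCast, ← zpow_natCast (y ^ q) l, ← zpow_natCast (y ^ q) (N * M),
          ← zpow_mul, ← zpow_add]
        congr 1
        have := Int.emod_add_mul_ediv m ((N * M : ℕ) : ℤ)
        rw [hl] at this
        exact this.symm
      change (y ^ q) ^ l • a = _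
      rw [h7, mul_smul, hfix]
  have h8 := Set.ncard_le_ncard h2 (Finset.finite_toSet _)
  rw [Set.ncard_coe_finset] at h8
  have h9 := Finset.card_image_le (s := Finset.range (N * M)) (f := fun i => (y ^ q) ^ i • a)
  rw [Finset.card_range] at h9
  exact h8.trans (h9.trans (Nat.mul_le_mul_left N hM))

/-- The four properties of a block `B` containing the block `E`, for an action. -/
def Four (G : Type*) {Ω : Type*} [Group G] [MulAction G Ω] (k : ℕ) (E B : Set Ω) : Prop :=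
  (∃ t y : G, ∃ a ∈ B, ∃ q : ℕ, 0 < q ∧ y • a ∉ B ∧ (∀ j, 0 < j → j < q → y ^ j • a ∉ B) ∧
    (∀ c, c ∉ B → t • c = c) ∧ t • a = y ^ q • a) ∨
  (∃ y : G, ∃ a ∈ B, (∃ n : ℤ, y ^ n • a ∉ B) ∧
    (B ∩ {b | ∃ n : ℤ, y ^ n • a = b}).ncard ≤ k) ∨
  (0 < k ∧ ∀ g ∈ U G B, ∃ t : G, (∀ c, c ∉ B → t • c = c) ∧ ∀ a ∈ B, t • a = g ^ k • a) ∨
  (∀ y : G, y ∉ U G B → ∃ s t : G, ∃ m : ℕ, (∀ c, c ∉ B → s • c = c) ∧
    (∀ c, c ∉ B → t • c = c) ∧ (∀ a ∈ B, t • a = (y * s) ^ m • a) ∧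
    ∃ d : G, d * t * d⁻¹ ∉ U G E)

theorem master [Infinite Ω] (hfin : ∀ g : G, {a : Ω | g • a ≠ a}.Finite)
    (htr : ∀ a b : Ω, ∃ g : G, g • a = b)
    (hM : ∀ E : Set Ω, E.Finite → Blk G E → E.Nonempty → ∃ k : ℕ, ∀ F : Set Ω, F.Finite →
      ∃ B : Set Ω, F ⊆ B ∧ E ⊆ B ∧ B.Finite ∧ Blk G B ∧ Four G k E B) :
    ∃ H : Subgroup G, H ≠ ⊤ ∧ ∃ a : Ω, (MulAction.orbit H a).Infinite := by
  classical
  obtain ⟨a₀⟩ : Nonempty Ω := inferInstance
  by_cases h2 : ∀ F : Set Ω, F.Finite → ∃ B : Set Ω, F ⊆ B ∧ B.Finite ∧ Blk G B ∧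
      ∃ t y : G, ∃ a ∈ B, ∃ q : ℕ, 0 < q ∧ y • a ∉ B ∧
        (∀ j, 0 < j → j < q → y ^ j • a ∉ B) ∧ (∀ c, c ∉ B → t • c = c) ∧ t • a = y ^ q • a
  · obtain ⟨H, h1, h3, -⟩ := three hfin htr 0 (fun F hF => by
      obtain ⟨B, hB1, hB2, hB3, hB4⟩ := h2 F hF
      exact ⟨B, hB1, hB2, hB3, Or.inr (Or.inl hB4)⟩) {a₀} (Set.finite_singleton a₀)
    exact ⟨H, h1, a₀, h3 a₀ rfl⟩
  by_cases h3 : ∃ k : ℕ, ∀ F : Set Ω, F.Finite → ∃ B : Set Ω, F ⊆ B ∧ B.Finite ∧ Blk G B ∧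
      ∃ y : G, ∃ a ∈ B, (∃ n : ℤ, y ^ n • a ∉ B) ∧
        (B ∩ {b | ∃ n : ℤ, y ^ n • a = b}).ncard ≤ k
  · obtain ⟨k, hk⟩ := h3
    obtain ⟨H, h1, h2, -⟩ := three hfin htr k (fun F hF => by
      obtain ⟨B, hB1, hB2, hB3, hB4⟩ := hk F hF
      exact ⟨B, hB1, hB2, hB3, Or.inr (Or.inr hB4)⟩) {a₀} (Set.finite_singleton a₀)
    exact ⟨H, h1, a₀, h2 a₀ rfl⟩
  simp only [not_forall, not_exists] at h2 h3
  obtain ⟨F₂, hF₂, h2⟩ := h2
  refine powers hfin htr (fun E hEf hE hEne F hF => ?_)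
  obtain ⟨e, he⟩ := hEne
  obtain ⟨k, hk⟩ := hM E hEf hE ⟨e, he⟩
  obtain ⟨F₃, hF₃, h3a⟩ := h3 k
  obtain ⟨F₄, hF₄, h3b⟩ := h3 (k * E.ncard)
  obtain ⟨B, hFB, hEB, hBf, hB, hcase⟩ := hk (F ∪ F₂ ∪ F₃ ∪ F₄)
    (((hF.union hF₂).union hF₃).union hF₄)
  have hF1 : F ⊆ B := fun a ha => hFB (Or.inl (Or.inl (Or.inl ha)))
  have hF2 : F₂ ⊆ B := fun a ha => hFB (Or.inl (Or.inl (Or.inr ha)))
  have hF3 : F₃ ⊆ B := fun a ha => hFB (Or.inl (Or.inr ha))
  have hF4 : F₄ ⊆ B := fun a ha => hFB (Or.inr ha)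
  refine ⟨B, hF1, hEB, hBf, hB, ?_⟩
  rcases hcase with h | h | h | h
  · obtain ⟨t, y, a, ha, q, h4⟩ := h
    exact absurd ⟨hF2, hBf, hB, t, y, a, ha, q, h4⟩ (h2 B)
  · obtain ⟨y, a, ha, h4⟩ := h
    exact absurd ⟨hF3, hBf, hB, y, a, ha, h4⟩ (h3a B)
  · obtain ⟨hk0, hpow⟩ := h
    intro y hy
    obtain ⟨m, hm, hma⟩ := exists_return hfin (hEB he) y
    obtain ⟨q, hq0, hqU, hq⟩ := exists_period ⟨m, hm, (mem_U hB (hEB he)).2 hma⟩
    obtain ⟨t, ht1, ht2⟩ := hpow _ hqU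
    refine ⟨1, t, q * k, fun c _ => one_smul G c, ht1, ?_, 1, ?_⟩
    · intro a ha
      rw [mul_one, ht2 a ha, ← pow_mul]
    · rw [one_mul, inv_one, mul_one]
      intro htE
      have h4 : y ^ (q * k) ∈ U G E := by
        rw [mem_U hE he, pow_mul, ← ht2 e (hEB he)]
        exact (htE e).2 he
      have h5 := count_le hEf hEB hB he hk0 hq h4
      refine absurd ⟨hF4, hBf, hB, y, e, hEB he, ⟨1, ?_⟩, h5⟩ (h3b B)
      rw [zpow_one]
      intro h6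
      exact hy ((mem_U hB (hEB he)).2 h6)
  · exact h

end Pool.Agent.H334.Returns

namespace Pool.Agent.H334.Returns

variable {G Ω : Type*} [Group G] [MulAction G Ω]

theorem mem_U_iff_image {B : Set Ω} {g : G} : g ∈ U G B ↔ (fun b => g • b) '' B = B := by
  constructor
  · intro h
    ext b
    constructor
    · rintro ⟨c, hc, rfl⟩
      exact (h c).2 hc
    · intro hb
      exact ⟨g⁻¹ • b, (inv_mem h b).2 hb, smul_inv_smul g b⟩
  · intro h b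
    constructor
    · intro hb
      rw [← h] at hb
      obtain ⟨c, hc, hcb⟩ := hb
      rwa [← smul_left_cancel g hcb]
    · intro hb
      rw [← h]
      exact ⟨b, hb, rfl⟩

theorem of_blk {B : Set Ω} (h : Blk G B) (g : G) :
    (fun b => g • b) '' B = B ∨ Disjoint ((fun b => g • b) '' B) B := by
  by_cases h1 : ∃ b ∈ B, g • b ∈ B
  · obtain ⟨b, hb, hgb⟩ := h1
    exact Or.inl (mem_U_iff_image.1 ((mem_U h hb).2 hgb))
  · push Not at h1
    refine Or.inr (Set.disjoint_left.2 ?_)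
    rintro _ ⟨b, hb, rfl⟩
    exact h1 b hb

theorem image_of_conj {E : Set Ω} {c t : G} (h : c⁻¹ * t * c ∈ U G E) :
    (fun b => t • b) '' ((fun b => c • b) '' E) = (fun b => c • b) '' E := by
  have h1 := mem_U_iff_image.1 h
  rw [Set.image_image]
  conv_rhs => rw [← h1, Set.image_image]
  apply Set.image_congr
  intro b _
  rw [← mul_smul, ← mul_smul]
  congr 1
  group

end Pool.Agent.H334.Returns
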