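import Pool.Agent.H334.Count

/-!
Returns into the orbits of the elements supported in a block.
-/

set_option autoImplicit false

namespace Pool.Agent.H334.Returns

variable {G Ω : Type*} [Group G] [MulAction G Ω]

theorem exists_return (hfin : ∀ g : G, {a : Ω | g • a ≠ a}.Finite) {B : Set Ω} {a : Ω}
    (ha : a ∈ B) (y : G) : ∃ n : ℕ, 0 < n ∧ y ^ n • a ∈ B := by
  by_cases hya : y • a = a
  · exact ⟨1, one_pos, by rw [pow_one, hya]; exact ha⟩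
  have hsup : ∀ n : ℕ, y ^ n • a ∈ {a : Ω | y • a ≠ a} := by
    intro n h
    rw [← mul_smul, ← pow_succ', pow_succ, mul_smul] at h
    exact hya (smul_left_cancel _ h)
  have hninj : ¬ Function.Injective (fun n : ℕ => y ^ n • a) := by
    intro hinj
    exact Set.infinite_of_injective_forall_mem hinj hsup (hfin y)
  have hlt : ∀ m n : ℕ, m < n → y ^ m • a = y ^ n • a → ∃ n : ℕ, 0 < n ∧ y ^ n • a ∈ B := by
    intro m n hmn h
    refine ⟨n - m, by omega, ?_⟩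
    have h8 : y ^ n = y ^ m * y ^ (n - m) := by rw [← pow_add]; congr 1; omega
    rw [h8, mul_smul] at h
    have h9 := smul_left_cancel _ h
    rw [← h9]
    exact ha
  unfold Function.Injective at hninj
  push Not at hninj
  obtain ⟨m, n, hmn, hne⟩ := hninj
  rcases lt_or_gt_of_ne hne with h | h
  · exact hlt m n h hmn
  · exact hlt n m h hmn.symm

theorem orb (hfin : ∀ g : G, {a : Ω | g • a ≠ a}.Finite) (htr : ∀ a b : Ω, ∃ g : G, g • a = b)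
    (hk : ∀ F : Set Ω, F.Finite → ∃ B : Set Ω, F ⊆ B ∧ B.Finite ∧ Blk G B ∧
      ∃ t y : G, ∃ a ∈ B, ∃ q : ℕ, 0 < q ∧ y • a ∉ B ∧ (∀ j, 0 < j → j < q → y ^ j • a ∉ B) ∧
        (∀ c, c ∉ B → t • c = c) ∧ t • a = y ^ q • a) :
    ∀ F : Set Ω, F.Finite → ∃ B : Set Ω, F ⊆ B ∧ ∃ t y : G, ∃ q : ℕ,
      1 < q ∧ (∀ a, a ∉ B → t • a = a) ∧ (∀ j, 0 < j → j < q → ∀ b ∈ B, y ^ j • b ∉ B) ∧
      (∀ a ∈ F, t • a = y ^ q • a) := by
  intro F hF
  obtain ⟨E, hFE, hEf, hE, -, -, a₁, ha₁, -⟩ := hk F hF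
  obtain ⟨F₂, hF₂, hF₂t⟩ := exists_support hfin E hEf
  obtain ⟨B, hB1, hBf, hB, t, y, a, ha, q, hq0, hya, hlt, ht, hta⟩ := hk (F₂ ∪ E) (hF₂.union hEf)
  have hEB : E ⊆ B := fun c hc => hB1 (Or.inr hc)
  obtain ⟨g, hg⟩ := htr a a₁
  have hgB : g ∈ U G B := (mem_U hB ha).2 (by rw [hg]; exact hEB ha₁)
  have hpow : ∀ n : ℕ, (g * y * g⁻¹) ^ n • a₁ = g • y ^ n • a := by
    intro n
    rw [conj_pow, mul_smul, mul_smul, ← hg, inv_smul_smul]
  have ht' : ∀ c, c ∉ B → (g * t * g⁻¹) • c = c := by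
    intro c hc
    have h1 : g⁻¹ • c ∉ B := by
      intro h
      apply hc
      have := (hgB (g⁻¹ • c)).2 h
      rwa [smul_inv_smul] at this
    rw [mul_smul, mul_smul, ht _ h1, smul_inv_smul]
  have hta' : (g * t * g⁻¹) • a₁ = (g * y * g⁻¹) ^ q • a₁ := by
    rw [hpow, ← hta, mul_smul, mul_smul, ← hg, inv_smul_smul]
  have hs : (g * t * g⁻¹)⁻¹ * (g * y * g⁻¹) ^ q ∈ U G E := by
    rw [mem_U hE ha₁, mul_smul, ← hta', inv_smul_smul]
    exact ha₁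
  obtain ⟨t₂, ht₂, ht₂E⟩ := hF₂t _ hs
  refine ⟨B, fun c hc => hEB (hFE hc), (g * t * g⁻¹) * t₂, g * y * g⁻¹, q, ?_, ?_, ?_, ?_⟩
  · rcases Nat.lt_or_ge 1 q with h | h
    · exact h
    · exfalso
      have h8 : q = 1 := le_antisymm h hq0
      rw [h8, pow_one] at hta
      apply hya
      rw [← hta]
      by_contra h9
      have h10 := smul_left_cancel t (ht _ h9)
      rw [h10] at h9
      exact h9 ha
  · intro c hc
    rw [mul_smul, ht₂ c (fun h => hc (hB1 (Or.inl h))), ht' c hc]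
  · intro j hj0 hjq b hb hjb
    have h1 : (g * y * g⁻¹) ^ j ∈ U G B := (mem_U hB hb).2 hjb
    have h2 := (h1 a₁).2 (hEB ha₁)
    rw [hpow, hgB] at h2
    exact hlt j hj0 hjq h2
  · intro c hc
    rw [mul_smul, ht₂E c (hFE hc), ← mul_smul, mul_inv_cancel_left]

theorem orb_trans [Infinite Ω] (hfin : ∀ g : G, {a : Ω | g • a ≠ a}.Finite)
    (htr : ∀ a b : Ω, ∃ g : G, g • a = b)
    (hk : ∀ F : Set Ω, F.Finite → ∃ B : Set Ω, F ⊆ B ∧ B.Finite ∧ Blk G B ∧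
      ∀ a ∈ B, ∀ b ∈ B, ∃ t : G, (∀ c, c ∉ B → t • c = c) ∧ t • a = b) :
    ∀ F : Set Ω, F.Finite → ∃ B : Set Ω, F ⊆ B ∧ B.Finite ∧ Blk G B ∧
      ∃ t y : G, ∃ a ∈ B, ∃ q : ℕ, 0 < q ∧ y • a ∉ B ∧ (∀ j, 0 < j → j < q → y ^ j • a ∉ B) ∧
        (∀ c, c ∉ B → t • c = c) ∧ t • a = y ^ q • a := by
  classical
  intro F hF
  obtain ⟨a⟩ : Nonempty Ω := inferInstance
  obtain ⟨B, hFB, hBf, hB, hBt⟩ := hk (F ∪ {a}) (hF.union (Set.finite_singleton a))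
  have ha : a ∈ B := hFB (Or.inr rfl)
  obtain ⟨c, hc⟩ : ∃ c, c ∉ B := by
    by_contra h
    push Not at h
    exact Set.infinite_univ (hBf.subset (fun c _ => h c))
  obtain ⟨y, hy⟩ := htr a c
  have hret := exists_return hfin ha y
  obtain ⟨hq0, hq⟩ := Nat.find_spec hret
  obtain ⟨t, ht, hta⟩ := hBt a ha _ hq
  refine ⟨B, fun b hb => hFB (Or.inl hb), hBf, hB, t, y, a, ha, Nat.find hret, hq0,
    by rw [hy]; exact hc, fun j hj0 hjq hj => Nat.find_min hret hjq ⟨hj0, hj⟩, ht, hta⟩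

end Pool.Agent.H334.Returns
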