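import Pool.Agent.H334.Cyclic

/-!
Powers of elements moving a block which agree on the block with elements supported in it.
-/

set_option autoImplicit false

namespace Pool.Agent.H334.Returns

variable {G Ω : Type*} [Group G] [MulAction G Ω]

theorem eventually_const {α : Type*} [Finite α] (φ : ℕ → α) :
    ∃ c, ∀ᶠ n in (Filter.hyperfilter ℕ : Filter ℕ), φ n = c := by
  obtain ⟨c, hc⟩ := Ultrafilter.eq_pure_of_finite ((Filter.hyperfilter ℕ).map φ)
  refine ⟨c, ?_⟩
  have h1 : ({c} : Set α) ∈ (Filter.hyperfilter ℕ).map φ := by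
    rw [hc]
    exact Set.mem_singleton c
  exact h1

theorem exists_noncomm [Infinite Ω] (hfin : ∀ g : G, {a : Ω | g • a ≠ a}.Finite)
    (htr : ∀ a b : Ω, ∃ g : G, g • a = b) :
    ∃ u v : G, ∃ a : Ω, u • v • a ≠ v • u • a := by
  by_contra hcon
  push Not at hcon
  have h0 : ∀ g : G, ∀ b : Ω, g • b = b := by
    intro g b
    obtain ⟨a, ha⟩ : ∃ a, g • a = a := by
      by_contra h1
      push Not at h1
      exact Set.infinite_univ ((hfin g).subset (fun a _ => h1 a))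
    obtain ⟨k, rfl⟩ := htr a b
    rw [hcon, ha]
  obtain ⟨a⟩ : Nonempty Ω := inferInstance
  obtain ⟨b, hb⟩ := exists_ne a
  obtain ⟨g, hg⟩ := htr a b
  rw [h0] at hg
  exact hb hg.symm

theorem powers [Infinite Ω] (hfin : ∀ g : G, {a : Ω | g • a ≠ a}.Finite)
    (htr : ∀ a b : Ω, ∃ g : G, g • a = b)
    (h7 : ∀ E : Set Ω, E.Finite → Blk G E → E.Nonempty → ∀ F : Set Ω, F.Finite →
      ∃ B : Set Ω, F ⊆ B ∧ E ⊆ B ∧ B.Finite ∧ Blk G B ∧ ∀ y : G, y ∉ U G B →
        ∃ s t : G, ∃ m : ℕ, (∀ c, c ∉ B → s • c = c) ∧ (∀ c, c ∉ B → t • c = c) ∧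
          (∀ a ∈ B, t • a = (y * s) ^ m • a) ∧ ∃ d : G, d * t * d⁻¹ ∉ U G E) :
    ∃ H : Subgroup G, H ≠ ⊤ ∧ ∃ a : Ω, (MulAction.orbit H a).Infinite := by
  classical
  obtain ⟨u, v, a₀, huv⟩ := exists_noncomm (G := G) hfin htr
  -- the chain of blocks
  let X := {E : Set Ω // E.Finite ∧ Blk G E ∧ a₀ ∈ E}
  have hnext : ∀ E : X, ∃ E' : X, E.1 ⊆ E'.1 ∧ ∀ y : G, y ∉ U G E'.1 →
      ∃ s t : G, ∃ m : ℕ, (∀ c, c ∉ E'.1 → s • c = c) ∧ (∀ c, c ∉ E'.1 → t • c = c) ∧
        (∀ a ∈ E'.1, t • a = (y * s) ^ m • a) ∧ ∃ d : G, d * t * d⁻¹ ∉ U G E.1 := by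
    rintro ⟨E, hEf, hE, ha⟩
    obtain ⟨B, -, hEB, hBf, hB, hB4⟩ := h7 E hEf hE ⟨a₀, ha⟩ ∅ Set.finite_empty
    exact ⟨⟨B, hBf, hB, hEB ha⟩, hEB, hB4⟩
  choose nxt hn1 hn2 using hnext
  obtain ⟨E₀, hE₀1, -, hE₀f, hE₀, -⟩ := h7 {a₀} (Set.finite_singleton a₀) (blk_singleton a₀)
    ⟨a₀, rfl⟩ {a₀, u • a₀, v • a₀} (Set.toFinite _)
  let E : ℕ → X := fun k => Nat.rec (motive := fun _ => X)
    (⟨E₀, hE₀f, hE₀, hE₀1 (by simp)⟩ : X) (fun _ s => nxt s) k
  have hEs : ∀ k, E (k + 1) = nxt (E k) := fun k => rfl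
  have hEmono : Monotone (fun k => (E k).1) :=
    monotone_nat_of_le_succ (fun k => by rw [hEs]; exact hn1 (E k))
  have haE : ∀ k, a₀ ∈ (E k).1 := fun k => (E k).2.2.2
  have hEb : ∀ k, Blk G (E k).1 := fun k => (E k).2.2.1
  have hUE : ∀ i j, i ≤ j → U G (E i).1 ≤ U G (E j).1 := fun i j hij =>
    U_mono (hEb j) (hEmono hij) (haE i)
  have hn2' : ∀ k, ∀ y : G, y ∉ U G (E (k + 1)).1 →
      ∃ s t : G, ∃ m : ℕ, (∀ c, c ∉ (E (k + 1)).1 → s • c = c) ∧
        (∀ c, c ∉ (E (k + 1)).1 → t • c = c) ∧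
        (∀ a ∈ (E (k + 1)).1, t • a = (y * s) ^ m • a) ∧ ∃ d : G, d * t * d⁻¹ ∉ U G (E k).1 :=
    fun k => hn2 (E k)
  -- good elements
  let Good : ℕ → G → Prop := fun j y => ∃ t : G, ∃ m : ℕ, (∀ c, c ∉ (E (j + 1)).1 → t • c = c) ∧
    (∀ a ∈ (E (j + 1)).1, t • a = y ^ m • a) ∧ t ∉ U G (E j).1
  have hkeep : ∀ i j, i + 1 ≤ j → ∀ y s : G, (∀ c, c ∉ (E (i + 1)).1 → s • c = c) →
      Good j y → Good j (y * s) := by
    rintro i j hij y s hs ⟨t, m, ht1, ht2, ht3⟩
    have hs' : ∀ c, c ∉ (E j).1 → s • c = c := fun c hc => hs c (fun h => hc (hEmono hij h))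
    obtain ⟨s', h1, h2, h3⟩ := keep (hEb j) (hEb (j + 1)) (hEmono (Nat.le_succ j)) hs' y m
    have h4 : s' ∈ U G (E (j + 1)).1 := mem_U_of_support h1
    refine ⟨t * s', m, ?_, ?_, ?_⟩
    · intro c hc
      rw [mul_smul, h1 c hc, ht1 c hc]
    · intro a ha
      rw [mul_smul, ht2 _ ((h4 a).2 ha), h3 a ha]
    · intro h
      apply ht3
      have := mul_mem h (inv_mem h2)
      rwa [mul_inv_cancel_right] at this
  have hconj : ∀ j, ∀ d y : G, d ∈ U G (E j).1 → Good j y → Good j (d * y * d⁻¹) := by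
    rintro j d y hd ⟨t, m, ht1, ht2, ht3⟩
    have hd1 : d ∈ U G (E (j + 1)).1 := hUE j (j + 1) (Nat.le_succ j) hd
    refine ⟨d * t * d⁻¹, m, ?_, ?_, ?_⟩
    · intro c hc
      have h1 : d⁻¹ • c ∉ (E (j + 1)).1 := fun h => hc ((inv_mem hd1 c).1 h)
      rw [mul_smul, mul_smul, ht1 _ h1, smul_inv_smul]
    · intro a ha
      rw [conj_pow, mul_smul, mul_smul, ht2 _ ((inv_mem hd1 a).2 ha), mul_smul, mul_smul]
    · intro h
      apply ht3
      have h1 := mul_mem (mul_mem (inv_mem hd) h) hd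
      have h2 : d⁻¹ * (d * t * d⁻¹) * d = t := by group
      rwa [h2] at h1
  -- elements moving the blocks
  have hy : ∀ n, ∃ y : G, y ∉ U G (E n).1 ∧ ∀ j, j < n → Good j y := by
    intro n
    have hd : ∀ d, d ≤ n → ∃ y : G, y ∉ U G (E n).1 ∧ ∀ j, n - d ≤ j → j < n → Good j y := by
      intro d
      induction d with
      | zero =>
        intro _
        obtain ⟨c, hc⟩ : ∃ c, c ∉ (E n).1 := by
          by_contra h
          push Not at h
          exact Set.infinite_univ ((E n).2.1.subset (fun c _ => h c))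
        obtain ⟨y, hy⟩ := htr a₀ c
        refine ⟨y, fun h => hc ?_, fun j h1 h2 => by omega⟩
        rw [← hy]
        exact (h a₀).2 (haE n)
      | succ d ih =>
        intro hdn
        obtain ⟨y, hy, hgood⟩ := ih (by omega)
        obtain ⟨i, hi⟩ : ∃ i, i + 1 = n - d := ⟨n - (d + 1), by omega⟩
        obtain ⟨s, t, m, hs, ht, htm, d, hti⟩ := hn2' i y
          (fun h => hy (hUE (i + 1) n (by omega) h))
        have hdU : d⁻¹ ∈ U G (E (i + 1)).1 := by
          by_contra h1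
          apply hti
          have h2 : d⁻¹ • a₀ ∉ (E (i + 1)).1 := fun h => h1 ((mem_U (hEb (i + 1)) (haE (i + 1))).2 h)
          rw [mem_U (hEb i) (haE i), mul_smul, mul_smul, ht _ h2, smul_inv_smul]
          exact haE i
        have hdU' : d ∈ U G (E (i + 1)).1 := by
          have := inv_mem hdU
          rwa [inv_inv] at this
        have hmain : Good i (d * (y * s) * d⁻¹) := by
          refine ⟨d * t * d⁻¹, m, ?_, ?_, hti⟩
          · intro c hc
            have h1 : d⁻¹ • c ∉ (E (i + 1)).1 := fun h => hc ((hdU c).1 h)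
            rw [mul_smul, mul_smul, ht _ h1, smul_inv_smul]
          · intro a ha
            rw [conj_pow, mul_smul, mul_smul, htm _ ((hdU a).2 ha), mul_smul, mul_smul]
        refine ⟨d * (y * s) * d⁻¹, ?_, ?_⟩
        · intro h
          apply hy
          have h1 : s ∈ U G (E n).1 := hUE (i + 1) n (by omega) (mem_U_of_support hs)
          have h2 : d ∈ U G (E n).1 := hUE (i + 1) n (by omega) hdU'
          have h3 := mul_mem (mul_mem (mul_mem (inv_mem h2) h) h2) (inv_mem h1)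
          have h4 : d⁻¹ * (d * (y * s) * d⁻¹) * d * s⁻¹ = y := by group
          rwa [h4] at h3
        · intro j hj1 hj2
          rcases Nat.lt_or_ge i j with h | h
          · exact hconj j d (y * s) (hUE (i + 1) j (by omega) hdU')
              (hkeep i j h y s hs (hgood j (by omega) hj2))
          · have hji : j = i := by omega
            subst hji
            exact hmain
    obtain ⟨y, hy, hgood⟩ := hd n le_rfl
    exact ⟨y, hy, fun j hj => hgood j (by omega) hj⟩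
  choose y hy hgood using hy
  have hr : ∀ n i, ∃ q : ℕ, 0 < q ∧ y n ^ q ∈ U G (E i).1 ∧
      ∀ m : ℤ, y n ^ m ∈ U G (E i).1 → (q : ℤ) ∣ m := by
    intro n i
    apply exists_period
    obtain ⟨m, hm, hma⟩ := exists_return hfin (haE i) (y n)
    exact ⟨m, hm, (mem_U (hEb i) (haE i)).2 hma⟩
  choose r hr0 hrU hrd using hr
  -- the limit returns
  have hg : ∀ i, ∃ g ∈ U G (E i).1, ∀ᶠ n in (Filter.hyperfilter ℕ : Filter ℕ),
      ∀ a ∈ (E i).1, y n ^ r n i • a = g • a := by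
    intro i
    have : Finite (E i).1 := (E i).2.1.to_subtype
    let φ : ℕ → ((E i).1 → (E i).1) := fun n a => ⟨y n ^ r n i • (a : Ω), (hrU n i _).2 a.2⟩
    obtain ⟨c, hc⟩ := eventually_const φ
    obtain ⟨n₀, hn₀⟩ := hc.exists
    refine ⟨y n₀ ^ r n₀ i, hrU n₀ i, ?_⟩
    filter_upwards [hc] with n hn a ha
    have h1 : φ n = φ n₀ := hn.trans hn₀.symm
    exact congrArg Subtype.val (congrFun h1 ⟨a, ha⟩)
  choose g hgU hg using hg
  have hpow : ∀ i n, (∀ a ∈ (E i).1, y n ^ r n i • a = g i • a) → ∀ m : ℤ, ∀ a ∈ (E i).1,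
      (y n ^ r n i) ^ m • a = g i ^ m • a := by
    intro i n h m a ha
    have hnat : ∀ k : ℕ, ∀ a ∈ (E i).1, (y n ^ r n i) ^ k • a = g i ^ k • a := by
      intro k
      induction k with
      | zero => intro a _; simp
      | succ k ih =>
        intro a ha
        rw [pow_succ', mul_smul, ih a ha, pow_succ', mul_smul,
          h _ ((pow_mem (hgU i) k a).2 ha)]
    obtain ⟨k, rfl | rfl⟩ := m.eq_nat_or_neg
    · rw [zpow_natCast, zpow_natCast]
      exact hnat k a ha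
    · rw [zpow_neg, zpow_natCast, zpow_neg, zpow_natCast, inv_smul_eq_iff]
      have h1 : (g i ^ k)⁻¹ • a ∈ (E i).1 := (inv_mem (pow_mem (hgU i) k) a).2 ha
      rw [hnat k _ h1, smul_inv_smul]
  -- coherence
  have hev : ∀ i, ∃ n, i + 1 ≤ n ∧ (∀ a ∈ (E i).1, y n ^ r n i • a = g i • a) ∧
      ∀ a ∈ (E (i + 1)).1, y n ^ r n (i + 1) • a = g (i + 1) • a := by
    intro i
    have h1 : ∀ᶠ n in (Filter.hyperfilter ℕ : Filter ℕ), i + 1 ≤ n :=
      (Filter.eventually_ge_atTop (i + 1)).filter_mono Nat.hyperfilter_le_atTop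
    obtain ⟨n, hn⟩ := ((h1.and (hg i)).and (hg (i + 1))).exists
    exact ⟨n, hn.1.1, hn.1.2, hn.2⟩
  have hcoh : ∀ i, ∀ m : ℤ, g (i + 1) ^ m ∈ U G (E i).1 →
      ∃ m' : ℤ, ∀ a ∈ (E i).1, g (i + 1) ^ m • a = g i ^ m' • a := by
    intro i m hm
    obtain ⟨n, hn, h1, h2⟩ := hev i
    have h5 : ∀ a ∈ (E i).1, (y n ^ r n (i + 1)) ^ m • a = g (i + 1) ^ m • a := fun a ha =>
      hpow (i + 1) n h2 m a (hEmono (Nat.le_succ i) ha)
    have h6 : y n ^ ((r n (i + 1) : ℤ) * m) ∈ U G (E i).1 := by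
      rw [mem_U (hEb i) (haE i), zpow_mul, zpow_natCast, h5 _ (haE i)]
      exact (hm a₀).2 (haE i)
    obtain ⟨m', hm'⟩ := hrd n i _ h6
    refine ⟨m', fun a ha => ?_⟩
    rw [← h5 a ha, ← hpow i n h1 m' a ha, ← zpow_natCast (y n) (r n (i + 1)), ← zpow_mul, hm',
      zpow_mul, zpow_natCast]
  have hx : ∀ i, ∃ t : G, ∃ N : ℤ, (∀ c, c ∉ (E i).1 → t • c = c) ∧
      (∀ a ∈ (E i).1, t • a = g i ^ N • a) ∧ ∀ j, i = j + 1 → t ∉ U G (E j).1 := by
    intro i
    rcases i with _ | i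
    · exact ⟨1, 0, fun c _ => one_smul G c, fun a _ => by simp, fun j hj => by omega⟩
    · obtain ⟨n, hn, h1, h2⟩ := hev i
      obtain ⟨t, m, ht1, ht2, ht3⟩ := hgood n i (by omega)
      have hmU : y n ^ (m : ℤ) ∈ U G (E (i + 1)).1 := by
        rw [mem_U (hEb (i + 1)) (haE (i + 1)), zpow_natCast, ← ht2 _ (haE (i + 1))]
        exact (mem_U_of_support ht1 a₀).2 (haE (i + 1))
      obtain ⟨N, hN⟩ := hrd n (i + 1) _ hmU
      refine ⟨t, N, ht1, ?_, ?_⟩
      · intro a ha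
        rw [ht2 a ha, ← hpow (i + 1) n h2 N a ha, ← zpow_natCast (y n) m, hN, zpow_mul,
          zpow_natCast]
      · intro j hj
        have hji : i = j := by omega
        subst hji
        exact ht3
  choose x N hx1 hx2 hx3 using hx
  have hmove : ∀ i, x (i + 1) ∉ U G (E i).1 := fun i => hx3 (i + 1) i rfl
  -- the local groups
  have hloc : ∀ n, ∀ w ∈ Subgroup.closure ({z | ∃ j, j < n ∧ z = x j} ∪ {g n}),
      w ∈ U G (E 0).1 → ∃ m : ℤ, ∀ a ∈ (E 0).1, w • a = g 0 ^ m • a := by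
    intro n
    induction n with
    | zero =>
      intro w hw _
      have h1 : ({z | ∃ j, j < 0 ∧ z = x j} ∪ {g 0} : Set G) = {g 0} := by
        ext z
        simp
      rw [h1, Subgroup.mem_closure_singleton] at hw
      obtain ⟨m, rfl⟩ := hw
      exact ⟨m, fun a _ => rfl⟩
    | succ n ih =>
      intro w hw hwU
      have hsub : ({z | ∃ j, j < n + 1 ∧ z = x j} ∪ {g (n + 1)} : Set G)
          ⊆ {z | ∃ j, j < n ∧ z = x j} ∪ {x n} ∪ {g (n + 1)} := by
        rintro z (⟨j, hj, rfl⟩ | hz)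
        · rcases Nat.lt_succ_iff_lt_or_eq.1 hj with h | h
          · exact Or.inl (Or.inl ⟨j, h, rfl⟩)
          · rw [h]
            exact Or.inl (Or.inr rfl)
        · exact Or.inr hz
      have h1 := step3 (hEb n) (X := {z | ∃ j, j < n ∧ z = x j}) (t := x n) (g := g n)
        (g' := g (n + 1)) (N := N n)
        (by
          rintro _ ⟨j, hj, rfl⟩ c hc
          exact hx1 j c (fun h => hc (hEmono hj.le h)))
        (hx1 n) (hx2 n) (hgU n) (hcoh n) w (Subgroup.closure_mono hsub hw) 0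
      obtain ⟨i, h, hh, hi⟩ := h1
      have hi' : ∀ e ∈ (E n).1, w • e = g (n + 1) ^ i • h • e := by
        intro e he
        have := hi e he
        rwa [zpow_zero, one_smul] at this
      have hhU : h ∈ U G (E n).1 := by
        have h2 : Subgroup.closure ({z | ∃ j, j < n ∧ z = x j} ∪ {g n}) ≤ U G (E n).1 := by
          rw [Subgroup.closure_le]
          rintro z (⟨j, hj, rfl⟩ | hz)
          · rw [SetLike.mem_coe, mem_U (hEb n) (haE n)]
            by_contra h3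
            have h4 := smul_left_cancel (x j) (hx1 j _ (fun h => h3 (hEmono hj.le h)))
            rw [h4] at h3
            exact h3 (haE n)
          · rw [Set.mem_singleton_iff] at hz
            rw [hz]
            exact hgU n
        exact h2 hh
      have h2 : g (n + 1) ^ i ∈ U G (E n).1 := by
        have h3 : h • a₀ ∈ (E n).1 := (hhU a₀).2 (haE n)
        rw [mem_U (hEb n) h3, ← hi' a₀ (haE n)]
        exact (hUE 0 n (Nat.zero_le n) hwU a₀).2 (haE n)
      obtain ⟨m, hm⟩ := hcoh n i h2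
      have h3 : ∀ e ∈ (E n).1, w • e = (g n ^ m * h) • e := by
        intro e he
        rw [hi' e he, hm _ ((hhU e).2 he), mul_smul]
      have h0n : (E 0).1 ⊆ (E n).1 := hEmono (Nat.zero_le n)
      have hgn : g n ∈ Subgroup.closure ({z | ∃ j, j < n ∧ z = x j} ∪ {g n}) :=
        Subgroup.subset_closure (Or.inr rfl)
      obtain ⟨m', hm'⟩ := ih (g n ^ m * h)
        (mul_mem (zpow_mem hgn m) hh)
        (by
          rw [mem_U (hEb 0) (haE 0), ← h3 _ (haE n)]
          exact (hwU a₀).2 (haE 0))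
      exact ⟨m', fun a ha => by rw [h3 a (h0n ha), hm' a ha]⟩
  have hH : ∀ w ∈ Subgroup.closure (Set.range x), w ∈ U G (E 0).1 →
      ∃ m : ℤ, ∀ a ∈ (E 0).1, w • a = g 0 ^ m • a := by
    intro w hw hwU
    have h1 : (⨆ n, Subgroup.closure ({z | ∃ j, j < n ∧ z = x j} : Set G))
        = Subgroup.closure (Set.range x) := by
      apply le_antisymm
      · refine iSup_le (fun n => Subgroup.closure_mono ?_)
        rintro _ ⟨j, -, rfl⟩
        exact ⟨j, rfl⟩
      · rw [Subgroup.closure_le]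
        rintro _ ⟨j, rfl⟩
        have h2 : x j ∈ Subgroup.closure ({z | ∃ i, i < j + 1 ∧ z = x i} : Set G) :=
          Subgroup.subset_closure ⟨j, Nat.lt_succ_self j, rfl⟩
        exact (le_iSup (fun n => Subgroup.closure ({z | ∃ j, j < n ∧ z = x j} : Set G)) (j + 1)) h2
    rw [← h1] at hw
    have hmono : Monotone (fun n => Subgroup.closure ({z | ∃ j, j < n ∧ z = x j} : Set G)) := by
      intro m n hmn
      apply Subgroup.closure_mono
      rintro _ ⟨j, hj, rfl⟩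
      exact ⟨j, by omega, rfl⟩
    obtain ⟨n, hn⟩ := (Subgroup.mem_iSup_of_directed (hmono.directed_le)).1 hw
    exact hloc n w (Subgroup.closure_mono Set.subset_union_left hn) hwU
  refine ⟨Subgroup.closure (Set.range x), ?_, a₀, ?_⟩
  · intro htop
    have hu : u ∈ U G (E 0).1 := (mem_U (hEb 0) (haE 0)).2 (hE₀1 (by simp))
    have hv : v ∈ U G (E 0).1 := (mem_U (hEb 0) (haE 0)).2 (hE₀1 (by simp))
    obtain ⟨m, hm⟩ := hH u (by rw [htop]; trivial) hu
    obtain ⟨m', hm'⟩ := hH v (by rw [htop]; trivial) hv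
    apply huv
    rw [hm' _ (haE 0), hm _ ((zpow_mem (hgU 0) m' a₀).2 (haE 0)), hm _ (haE 0),
      hm' _ ((zpow_mem (hgU 0) m a₀).2 (haE 0)), ← mul_smul, ← mul_smul,
      ((Commute.refl (g 0)).zpow_zpow m m').eq]
  · have h1 : ∀ k, x k • a₀ ∈ (E k).1 := by
      intro k
      rw [hx2 k a₀ (haE k)]
      exact (zpow_mem (hgU k) (N k) a₀).2 (haE k)
    have h2 : ∀ k, x (k + 1) • a₀ ∉ (E k).1 := fun k h =>
      hmove k ((mem_U (hEb k) (haE k)).2 h)
    have hinj : Function.Injective (fun k => x (k + 1) • a₀) := by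
      have hlt : ∀ m n, m < n → x (m + 1) • a₀ ≠ x (n + 1) • a₀ := by
        intro m n hmn h
        apply h2 n
        rw [← h]
        exact hEmono (Nat.succ_le_of_lt hmn) (h1 (m + 1))
      intro m n hmn
      rcases lt_trichotomy m n with h | h | h
      · exact absurd hmn (hlt m n h)
      · exact h
      · exact absurd hmn.symm (hlt n m h)
    refine Set.infinite_of_injective_forall_mem hinj (fun k => ?_)
    exact ⟨⟨x (k + 1), Subgroup.subset_closure ⟨k + 1, rfl⟩⟩, rfl⟩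

end Pool.Agent.H334.Returns
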