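import Mathlib

/-!
Transitive groups of finitary permutations with elements whose cycles return rarely to large
finite blocks have intransitive subgroups with infinite orbits.
-/

set_option autoImplicit false

namespace Pool.Agent.H334.Returns

variable {G Ω : Type*} [Group G] [MulAction G Ω]

/-- `B` is a block (or empty). -/
def Blk (G : Type*) {Ω : Type*} [Group G] [MulAction G Ω] (B : Set Ω) : Prop :=
  ∀ g : G, ∀ b ∈ B, g • b ∈ B → ∀ c ∈ B, g • c ∈ B

/-- The setwise stabiliser. -/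
def U (G : Type*) {Ω : Type*} [Group G] [MulAction G Ω] (B : Set Ω) : Subgroup G where
  carrier := {g | ∀ b, g • b ∈ B ↔ b ∈ B}
  one_mem' := by
    intro b
    rw [one_smul]
  mul_mem' := by
    intro g h hg hh b
    rw [mul_smul, hg, hh]
  inv_mem' := by
    intro g hg b
    have := hg (g⁻¹ • b)
    rw [smul_inv_smul] at this
    exact this.symm

theorem mem_U {B : Set Ω} (hB : Blk G B) {a : Ω} (ha : a ∈ B) {g : G} :
    g ∈ U G B ↔ g • a ∈ B := by
  constructor
  · intro h
    exact (h a).2 ha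
  · intro h b
    constructor
    · intro hb
      have h1 := hB g⁻¹ (g • a) h (by rwa [inv_smul_smul]) (g • b) hb
      rwa [inv_smul_smul] at h1
    · intro hb
      exact hB g a ha h b hb

theorem U_mono {E B : Set Ω} (hB : Blk G B) (hEB : E ⊆ B) {a : Ω} (ha : a ∈ E) :
    U G E ≤ U G B := by
  intro g hg
  rw [mem_U hB (hEB ha)]
  exact hEB ((hg a).2 ha)

/-- From an element returning like an element supported in the block one gets an element
returning trivially. -/
theorem step1 {B F : Set Ω} (hFB : F ⊆ B) {t y : G} (ht : ∀ a, a ∉ B → t • a = a) {q : ℕ}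
    (hq0 : 0 < q) (hlt : ∀ j, 0 < j → j < q → ∀ b ∈ B, y ^ j • b ∉ B)
    (hty : ∀ a ∈ F, t • a = y ^ q • a) (n : ℤ) (a : Ω) (ha : a ∈ F)
    (hna : (t⁻¹ * y) ^ n • a ∈ F) (b : Ω) (hb : b ∈ F) : (t⁻¹ * y) ^ n • b = b := by
  have ht' : ∀ a, a ∉ B → t⁻¹ • a = a := by
    intro a ha
    rw [inv_smul_eq_iff, ht a ha]
  set x : G := t⁻¹ * y with hx
  have h1 : ∀ j, j < q → ∀ a ∈ B, x ^ j • a = y ^ j • a := by
    intro j
    induction j with
    | zero => intro _ a _; simp
    | succ j ih =>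
      intro hj a ha
      rw [pow_succ', mul_smul, ih (by omega) a ha, hx, mul_smul, ← mul_smul y, ← pow_succ']
      exact ht' _ (hlt (j + 1) (by omega) hj a ha)
  have h2 : ∀ a ∈ F, x ^ q • a = a := by
    intro a ha
    obtain ⟨q', rfl⟩ : ∃ q', q = q' + 1 := ⟨q - 1, by omega⟩
    rw [pow_succ', mul_smul, h1 q' (by omega) a (hFB ha), hx, mul_smul, ← mul_smul y, ← pow_succ',
      ← hty a ha, inv_smul_smul]
  have h3 : ∀ m : ℕ, ∀ a ∈ F, (x ^ q) ^ m • a = a := by
    intro m
    induction m with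
    | zero => intro a _; simp
    | succ m ih =>
      intro a ha
      rw [pow_succ', mul_smul, ih a ha, h2 a ha]
  have h4 : ∀ n : ℕ, ∀ a ∈ F, x ^ n • a ∈ F → ∀ b ∈ F, x ^ n • b = b := by
    intro n a ha hna b hb
    have e : ∀ c ∈ F, x ^ n • c = x ^ (n % q) • c := by
      intro c hc
      conv_lhs => rw [← Nat.mod_add_div n q]
      rw [pow_add, mul_smul, pow_mul, h3 _ c hc]
    by_cases hr : n % q = 0
    · rw [e b hb, hr, pow_zero, one_smul]
    · exfalso
      have hlt' := Nat.mod_lt n hq0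
      rw [e a ha, h1 _ hlt' a (hFB ha)] at hna
      exact hlt _ (by omega) hlt' a (hFB ha) (hFB hna)
  obtain ⟨m, rfl | rfl⟩ := n.eq_nat_or_neg
  · rw [zpow_natCast] at hna ⊢
    exact h4 m a ha hna b hb
  · rw [zpow_neg, zpow_natCast] at hna ⊢
    rw [inv_smul_eq_iff]
    exact (h4 m _ hna (by rwa [smul_inv_smul]) b hb).symm

/-- Adding an element returning trivially keeps the points of `D` apart. -/
theorem step2 {F D : Set Ω} (hDF : D ⊆ F) (H : Subgroup G) (hH : ∀ h ∈ H, ∀ a, a ∉ F → h • a = a)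
    {x : G} (hx : ∀ n : ℤ, ∀ a ∈ F, x ^ n • a ∈ F → ∀ b ∈ F, x ^ n • b = b)
    (hD : ∀ h ∈ H, ∀ a ∈ D, h • a ∈ D → ∀ b ∈ D, h • b = b) :
    ∀ g ∈ Subgroup.closure ((H : Set G) ∪ {x}), ∀ a ∈ D, g • a ∈ D → ∀ b ∈ D, g • b = b := by
  have hHF : ∀ h ∈ H, ∀ a ∈ F, h • a ∈ F := by
    intro h hh a ha
    by_contra h1
    have h2 := smul_left_cancel h (hH h hh _ h1)
    rw [h2] at h1
    exact h1 ha
  have key : ∀ g ∈ Submonoid.closure (((H : Set G) ∪ {x}) ∪ ((H : Set G) ∪ {x})⁻¹),
      ∀ j : ℤ, ∃ i : ℤ, ∃ h ∈ H, ∀ e ∈ F, g • x ^ j • e = x ^ i • h • e := by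
    intro g hg
    induction hg using Submonoid.closure_induction with
    | mem g hg =>
      intro j
      have hcase : ∀ g ∈ H, ∃ i : ℤ, ∃ h ∈ H, ∀ e ∈ F, g • x ^ j • e = x ^ i • h • e := by
        intro g hg
        by_cases hj : ∃ a ∈ F, x ^ j • a ∈ F
        · obtain ⟨a, ha, hja⟩ := hj
          refine ⟨0, g, hg, fun e he => ?_⟩
          rw [hx j a ha hja e he, zpow_zero, one_smul]
        · push Not at hj
          refine ⟨j, 1, one_mem _, fun e he => ?_⟩
          rw [one_smul, hH g hg _ (hj e he)]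
      rcases hg with (hg | hg) | hg
      · exact hcase g hg
      · rw [Set.mem_singleton_iff] at hg
        subst hg
        refine ⟨j + 1, 1, one_mem _, fun e he => ?_⟩
        rw [one_smul, ← mul_smul, ← zpow_one_add, add_comm]
      · rw [Set.mem_inv] at hg
        rcases hg with hg | hg
        · exact hcase g (by simpa using inv_mem hg)
        · rw [Set.mem_singleton_iff] at hg
          have hg' : g = x⁻¹ := by rw [← hg, inv_inv]
          subst hg'
          refine ⟨j - 1, 1, one_mem _, fun e he => ?_⟩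
          rw [one_smul, ← mul_smul, sub_eq_neg_add, zpow_add, zpow_neg_one]
    | one =>
      intro j
      exact ⟨j, 1, one_mem _, fun e he => by rw [one_smul, one_smul]⟩
    | mul g g' _ _ ih ih' =>
      intro j
      obtain ⟨i, h, hh, hi⟩ := ih' j
      obtain ⟨i', h', hh', hi'⟩ := ih i
      refine ⟨i', h' * h, mul_mem hh' hh, fun e he => ?_⟩
      rw [mul_smul, hi e he, hi' _ (hHF h hh e he), mul_smul h' h]
  intro g hg a ha hga b hb
  have hg' : g ∈ Submonoid.closure (((H : Set G) ∪ {x}) ∪ ((H : Set G) ∪ {x})⁻¹) := by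
    rw [← Subgroup.closure_toSubmonoid]
    exact hg
  obtain ⟨i, h, hh, hi⟩ := key g hg' 0
  have hi' : ∀ e ∈ F, g • e = x ^ i • h • e := by
    intro e he
    have := hi e he
    rwa [zpow_zero, one_smul] at this
  have h1 : x ^ i • (h • a) ∈ F := by
    rw [← hi' a (hDF ha)]
    exact hDF hga
  have h2 := hx i (h • a) (hHF h hh a (hDF ha)) h1
  have h3 : ∀ e ∈ F, g • e = h • e := by
    intro e he
    rw [hi' e he, h2 _ (hHF h hh e he)]
  rw [h3 b (hDF hb)]
  refine hD h hh a ha ?_ b hb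
  rw [← h3 a (hDF ha)]
  exact hga

/-- If for every finite set `F` there are a block `B ⊇ F` and an element `y` moving `B` whose
first return to `B` agrees on `F` with an element supported in `B`, then there are subgroups with
infinite orbits keeping given points apart. -/
theorem general (hfin : ∀ g : G, {a : Ω | g • a ≠ a}.Finite)
    (hC : ∀ F : Set Ω, F.Finite → ∃ B : Set Ω, F ⊆ B ∧ ∃ t y : G, ∃ q : ℕ,
      1 < q ∧ (∀ a, a ∉ B → t • a = a) ∧ (∀ j, 0 < j → j < q → ∀ b ∈ B, y ^ j • b ∉ B) ∧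
      (∀ a ∈ F, t • a = y ^ q • a)) (D : Set Ω) (hD : D.Finite) :
    ∃ H : Subgroup G, (∀ a ∈ D, (MulAction.orbit H a).Infinite) ∧
      ∀ a ∈ D, ∀ b ∈ D, a ≠ b → ∀ h ∈ H, h • a ≠ b := by
  classical
  let X := {s : Subgroup G × Set Ω // s.2.Finite ∧ (∀ h ∈ s.1, ∀ a, a ∉ s.2 → h • a = a) ∧
    D ⊆ s.2 ∧ (∀ h ∈ s.1, ∀ a ∈ D, h • a ∈ D → ∀ b ∈ D, h • b = b)}
  have hstep : ∀ s : X, ∃ s' : X, s.1.1 ≤ s'.1.1 ∧ s.1.2 ⊆ s'.1.2 ∧
      ∃ x ∈ s'.1.1, ∀ a ∈ D, x • a ∈ s'.1.2 ∧ x • a ∉ s.1.2 := by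
    rintro ⟨⟨H, F⟩, hF, hH, hDF, hHD⟩
    obtain ⟨B, hFB, t, y, q, hq, ht, hlt, hty⟩ := hC F hF
    simp only at hF hH hDF hHD hFB hty ⊢
    have hx := step1 hFB ht (by omega) hlt hty
    set x : G := t⁻¹ * y with hxd
    have hxB : ∀ a ∈ B, x • a ∉ B := by
      intro a ha h1
      have h2 := hlt 1 one_pos hq a ha
      rw [pow_one] at h2
      have h3 : t⁻¹ • (y • a) = y • a := by rw [inv_smul_eq_iff, ht _ h2]
      rw [hxd, mul_smul, h3] at h1
      exact h2 h1
    refine ⟨⟨⟨Subgroup.closure ((H : Set G) ∪ {x}),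
      F ∪ {a | x • a ≠ a} ∪ (fun a => x • a) '' D⟩, ?_, ?_, ?_, ?_⟩, ?_, ?_, ?_⟩
    · exact (hF.union (hfin x)).union (hD.image _)
    · intro h hh a ha
      have h1 : Subgroup.closure ((H : Set G) ∪ {x}) ≤ MulAction.stabilizer G a := by
        rw [Subgroup.closure_le]
        rintro g (hg | hg)
        · exact hH g hg a (fun h2 => ha (Or.inl (Or.inl h2)))
        · rw [Set.mem_singleton_iff] at hg
          subst hg
          change x • a = a
          by_contra h2
          exact ha (Or.inl (Or.inr h2))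
      exact h1 hh
    · intro a ha
      exact Or.inl (Or.inl (hDF ha))
    · exact step2 hDF H hH (fun n a ha hn b hb => hx n a ha hn b hb) hHD
    · intro h hh
      exact Subgroup.subset_closure (Or.inl hh)
    · intro a ha
      exact Or.inl (Or.inl ha)
    · refine ⟨x, Subgroup.subset_closure (Or.inr rfl), fun a ha => ⟨Or.inr ⟨a, ha, rfl⟩, ?_⟩⟩
      intro h1
      exact hxB a (hFB (hDF ha)) (hFB h1)
  choose nxt hn1 hn2 hn3 using hstep
  let s : ℕ → X := fun k => Nat.rec (motive := fun _ => X)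
    (⟨⟨⊥, D⟩, hD, by
      intro h hh a _
      rw [Subgroup.mem_bot] at hh
      rw [hh, one_smul], subset_rfl, by
      intro h hh a _ _ b _
      rw [Subgroup.mem_bot] at hh
      rw [hh, one_smul]⟩ : X) (fun _ s => nxt s) k
  have hs : ∀ k, s (k + 1) = nxt (s k) := fun k => rfl
  have hmono : Monotone (fun k => (s k).1.1) :=
    monotone_nat_of_le_succ (fun k => by rw [hs]; exact hn1 (s k))
  have hmono2 : Monotone (fun k => (s k).1.2) :=
    monotone_nat_of_le_succ (fun k => by rw [hs]; exact hn2 (s k))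
  have hmem : ∀ g, g ∈ (⨆ k, (s k).1.1) ↔ ∃ k, g ∈ (s k).1.1 := fun g =>
    Subgroup.mem_iSup_of_directed (hmono.directed_le)
  choose x hx1 hx2 using fun k => hn3 (s k)
  refine ⟨⨆ k, (s k).1.1, ?_, ?_⟩
  · intro a ha
    have hinj : Function.Injective (fun k => x k • a) := by
      have hlt : ∀ m n, m < n → x m • a ≠ x n • a := by
        intro m n hmn h
        have h1 := (hx2 m a ha).1
        have h2 := (hx2 n a ha).2
        rw [← hs m] at h1
        rw [← h] at h2
        exact h2 (hmono2 (Nat.succ_le_of_lt hmn) h1)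
      intro m n hmn
      rcases lt_trichotomy m n with h | h | h
      · exact absurd hmn (hlt m n h)
      · exact h
      · exact absurd hmn.symm (hlt n m h)
    refine Set.infinite_of_injective_forall_mem hinj (fun k => ?_)
    have h1 : x k ∈ (⨆ k, (s k).1.1) := (hmem _).2 ⟨k + 1, by rw [hs]; exact hx1 k⟩
    exact ⟨⟨x k, h1⟩, rfl⟩
  · intro a ha b hb hab h hh hhab
    obtain ⟨k, hk⟩ := (hmem h).1 hh
    have h1 := (s k).2.2.2.2 h hk a ha (by rw [hhab]; exact hb) a ha
    exact hab (h1.symm.trans hhab)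

end Pool.Agent.H334.Returns
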